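import Pool.Agent.TH183.QS.Fin
import Pool.Agent.TH518.CW.Fin
import Pool.Agent.Q54.FM.DegFin

set_option autoImplicit false

/-!
# General collisions: degrees without exceptions, several numbers of points and all multiplicities at once

For `r ≥ 10` we consider the subschemes of the plane with ideal
`(y - (a₀ + a₁ x + ... + a_(r-1) x ^ (r-1)), (x - c) ^ r) ^ m`, for all `(c, a)` outside a hypersurface. We show for most
of the degrees `d`, also in certain sparse sets, that the forms of degree `d` through the subscheme have the expected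
dimension for ALL multiplicities `m`, for several numbers `r` at once. The proportion of the exceptional `d` is

* in characteristic zero: at most `1 - ∏ (1 - bad r)`, the product over the non-squares `r`, which have to lie in
  different square classes (and all squares `r ≥ 10` at once);
* for all fields: at most `1 - ∏ (1 - badAll r)`, for `r` in any subset of `{10, ..., 15}` and `r = 16`. So it is less than
  `0.617` for all of `r = 10, 11, 12, 13, 14, 15, 16`.

The degrees run through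

* the values `f(n)`, `n < M`, of ANY polynomial `f` with integer coefficients of degree between `1` and `K` whose leading
  coefficient is at most `M ^ κ` (all intervals of length `M` wherever they are, arithmetic progressions with differences
  `≤ M ^ κ`, squares, `k`-th powers, ...),
* the numbers `b p + h`, `p ≤ M` prime, `p ≡ a mod q` with `|b|, q ≤ M ^ κ`,

with an error term `M ^ (1 - κ)`.

Proof. If `d` is exceptional for `r` and `m`, then `m` lies in a window of length less than one around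
`(d + 3 / 2) / √r - 1 / 2` (starting files). The vectors `(d / √r)`, `r` in different square classes,
are jointly uniformly distributed modulo one along these sequences with a power saving. This follows from the bounds for
exponential sums of the library of the team (`Pool.Agent.Q29.Eqd`) and from a lower bound for integer linear forms in square
roots (`Pool.Agent.Q54.FM.liou`).
-/

namespace Pool.Agent.Results.MP_e6aa12_ag.DegreesWithoutExceptions

universe u

open Polynomial in
/-- The forms of degree `d` in three variables whose dehomogenisation lies in the ideal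
`(y - ∑ a_j x ^ j, (x - c) ^ r) ^ m` of `k[x][y]`. -/
noncomputable def forms {k : Type u} [Field k] {r : ℕ} (m : ℕ) (c : k) (a : Fin r → k) (d : ℕ) :
    Submodule k (MvPolynomial (Fin 3) k) :=
  MvPolynomial.homogeneousSubmodule (Fin 3) k d ⊓
    (Submodule.restrictScalars k
      ((Ideal.span {X - C (∑ j : Fin r, C (a j) * X ^ (j : ℕ)), C ((X - C c) ^ r)} :
        Ideal k[X][X]) ^ m)).comap
      (MvPolynomial.aeval ![C X, X, 1] :
        MvPolynomial (Fin 3) k →ₐ[k] k[X][X]).toLinearMap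

/-- Over the field `k`, for all `(c, a)` outside a hypersurface, the space of forms has the expected dimension in the
degree `d`. -/
def At (k : Type u) [Field k] (r m d : ℕ) : Prop :=
  ∃ F : MvPolynomial (Fin (r + 1)) k, F ≠ 0 ∧
    ∀ (c : k) (a : Fin r → k), MvPolynomial.eval (Fin.cons c a : Fin (r + 1) → k) F ≠ 0 →
      Module.finrank k (forms m c a d) = Nat.choose (d + 2) 2 - r * Nat.choose (m + 1) 2

/-- The bound for the proportion of the exceptional degrees, characteristic zero. -/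
noncomputable def bad (r : ℕ) : ℝ :=
  (min (Real.sqrt r - 3) (2 / 3 + 9 / (4 * Real.sqrt r)) +
    min (Real.sqrt r - 3) (2 / 3 + 1 / (4 * Real.sqrt r))) / (2 * Real.sqrt r)

/-- The bound for the proportion of the exceptional degrees, all fields. -/
noncomputable def badAll (r : ℕ) : ℝ := ((Real.sqrt r - 3) + (Real.sqrt r - 3)) / (2 * Real.sqrt r)

/-- `SparseExceptions κ K M η P`: the property `P` fails rarely in polynomial sequences and along primes.
1. For every polynomial `f` with integer coefficients of degree between `1` and `K`, the leading coefficient being at most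
   `M ^ κ` in absolute value (the other coefficients are arbitrary), `P (f n)` fails for at most
   `η M + M ^ (1 - κ)` of the natural numbers `n < M` with `f n > 0`.
2. For all integers `b ≠ 0` and `h` and natural numbers `q ≥ 1` and `a`, `|b|, q ≤ M ^ κ`, `P (b p + h)` fails for at most
   `η T + M ^ (1 - κ)` of the `T` primes `p ≤ M` with `p ≡ a mod q` (only those with `b p + h > 0` are counted). -/
def SparseExceptions (κ : ℝ) (K M : ℕ) (η : ℝ) (P : ℕ → Prop) : Prop :=
  (∀ f : Polynomial ℤ, 1 ≤ f.natDegree → f.natDegree ≤ K → |(f.leadingCoeff : ℝ)| ≤ (M : ℝ) ^ κ →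
    ({n : ℕ | n < M ∧ 0 < f.eval (n : ℤ) ∧ ¬ P (f.eval (n : ℤ)).toNat}.ncard : ℝ) ≤
      η * M + (M : ℝ) ^ (1 - κ)) ∧
  (∀ b h : ℤ, b ≠ 0 → |(b : ℝ)| ≤ (M : ℝ) ^ κ → ∀ q a : ℕ, 1 ≤ q → (q : ℝ) ≤ (M : ℝ) ^ κ →
    ({p : ℕ | p ≤ M ∧ p.Prime ∧ p ≡ a [MOD q] ∧ 0 < b * p + h ∧ ¬ P (b * p + h).toNat}.ncard : ℝ) ≤
      η * ({p : ℕ | p ≤ M ∧ p.Prime ∧ p ≡ a [MOD q]}.ncard : ℝ) + (M : ℝ) ^ (1 - κ))

/-- the window, characteristic zero -/
lemma window (k : Type u) [Field k] [CharZero k] {r : ℕ} (hr : 10 ≤ r) (m d : ℕ) (hbad : ¬ At k r m d) :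
    -min (Real.sqrt r - 3) (2 / 3 + 9 / (4 * Real.sqrt r)) ≤ 2 * (d : ℝ) + 3 - Real.sqrt r * (2 * m + 1) ∧
      2 * (d : ℝ) + 3 - Real.sqrt r * (2 * m + 1) ≤ min (Real.sqrt r - 3) (2 / 3 + 1 / (4 * Real.sqrt r)) := by
  by_contra hcon
  apply hbad
  obtain ⟨F, hF, hF'⟩ := Pool.Agent.TH183.QS.coll_every hr m k
  refine ⟨F, hF, fun c a hc => hF' c a hc d ?_⟩
  by_contra hd
  push Not at hd
  obtain ⟨d1, d2, d3, d4⟩ := hd
  apply hcon
  constructor
  · rcases min_choice (Real.sqrt r - 3) (2 / 3 + 9 / (4 * Real.sqrt r)) with h | h <;> rw [h] <;> linarith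
  · rcases min_choice (Real.sqrt r - 3) (2 / 3 + 1 / (4 * Real.sqrt r)) with h | h <;> rw [h] <;> linarith

/-- the window, all fields -/
lemma window_all (k : Type u) [Field k] {r : ℕ} (hr : 10 ≤ r) (m d : ℕ) (hbad : ¬ At k r m d) :
    Real.sqrt r * m < d ∧ (d : ℝ) < Real.sqrt r * m + (Real.sqrt r - 3) := by
  by_contra hcon
  apply hbad
  obtain ⟨F, hF, hF'⟩ := Pool.Agent.TH518.CW.coll_all (m := m) hr k
  refine ⟨F, hF, fun c a hc => hF' c a hc d ?_⟩
  by_cases h3 : (d : ℝ) ≤ Real.sqrt r * m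
  · exact Or.inl h3
  · right
    by_contra h4
    exact hcon ⟨not_le.1 h3, by linarith⟩

lemma sixteen (k : Type u) [Field k] (m d : ℕ) : At k 16 m d := by
  by_contra hbad
  obtain ⟨hD1, hD2⟩ := window_all k (by norm_num) m d hbad
  have h3 : Real.sqrt ((16 : ℕ) : ℝ) = 4 := by
    have : ((16 : ℕ) : ℝ) = 4 ^ 2 := by norm_num
    rw [this]
    exact Real.sqrt_sq (by norm_num)
  rw [h3] at hD1 hD2
  have h4 : 4 * m < d := by exact_mod_cast hD1
  have h5 : (d : ℝ) < ((4 * m + 1 : ℕ) : ℝ) := by push_cast; linarith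
  have h6 : d < 4 * m + 1 := by exact_mod_cast h5
  omega

lemma sqrt_num : Real.sqrt ((10 : ℕ) : ℝ) < 3.1623 ∧ Real.sqrt ((11 : ℕ) : ℝ) < 3.3167 ∧
    Real.sqrt ((12 : ℕ) : ℝ) < 3.4642 ∧ Real.sqrt ((13 : ℕ) : ℝ) < 3.6056 ∧ Real.sqrt ((14 : ℕ) : ℝ) < 3.7417 ∧
    Real.sqrt ((15 : ℕ) : ℝ) < 3.873 := by
  refine ⟨?_, ?_, ?_, ?_, ?_, ?_⟩ <;>
    · rw [Real.sqrt_lt' (by norm_num)]
      norm_num

lemma badAll_ge {r : ℕ} {q : ℝ} (hr : 0 < r) (hq : Real.sqrt r < q) (hq0 : 0 < q) : 3 / q ≤ 1 - badAll r := by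
  have hs : 0 < Real.sqrt r := Real.sqrt_pos.2 (by exact_mod_cast hr)
  have h1 : 1 - badAll r = 3 / Real.sqrt r := by
    unfold badAll
    field_simp
    ring
  rw [h1]
  exact div_le_div_of_nonneg_left (by norm_num) hs hq.le

lemma badAll_num : 0.9486 ≤ 1 - badAll 10 ∧ 0.9045 ≤ 1 - badAll 11 ∧ 0.8659 ≤ 1 - badAll 12 ∧
    0.832 ≤ 1 - badAll 13 ∧ 0.8017 ≤ 1 - badAll 14 ∧ 0.7745 ≤ 1 - badAll 15 := by
  obtain ⟨h1, h2, h3, h4, h5, h6⟩ := sqrt_num
  refine ⟨le_trans ?_ (badAll_ge (by norm_num) h1 (by norm_num)), le_trans ?_ (badAll_ge (by norm_num) h2 (by norm_num)),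
    le_trans ?_ (badAll_ge (by norm_num) h3 (by norm_num)), le_trans ?_ (badAll_ge (by norm_num) h4 (by norm_num)),
    le_trans ?_ (badAll_ge (by norm_num) h5 (by norm_num)), le_trans ?_ (badAll_ge (by norm_num) h6 (by norm_num))⟩ <;>
    norm_num

lemma not_sq {n : ℕ} (h : n < 225) (h' : ∀ x ∈ Finset.range 15, x * x ≠ n) : ¬ IsSquare n := by
  rintro ⟨x, hx⟩
  refine h' x ?_ hx.symm
  rw [Finset.mem_range]
  by_contra hcon
  have h2 : 15 ≤ x := by omega
  have h3 := Nat.mul_le_mul h2 h2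
  omega

lemma prod_le {a b x y : ℝ} (ha : 0 ≤ a) (hb : 0 ≤ b) (h1 : a ≤ x) (h2 : b ≤ y) : a * b ≤ x * y :=
  mul_le_mul h1 h2 hb (ha.trans h1)

lemma sqrt_three {r : ℕ} (hr : 10 ≤ r) : 3 < Real.sqrt r := by
  rw [Real.lt_sqrt (by norm_num)]
  have : (10 : ℝ) ≤ r := by exact_mod_cast hr
  linarith

/-- 1. Characteristic zero. Let `T` be a nonempty finite set of numbers `r ≥ 10`, no element of `T` and no product of two
different elements being a perfect square. For every `K` there are `0 < κ ≤ 1` and `M₀` such that for all `M ≥ M₀` the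
degrees `d` for which `At k r m d` fails for SOME field `k` of characteristic zero, SOME `m` and SOME `r` in `T` or some
perfect square `r ≥ 10` have the proportion at most `1 - ∏_(r in T) (1 - bad r)` in all the sequences of
`SparseExceptions`, up to `M ^ (1 - κ)`; and `0 ≤ bad r < 1 / 3`.
2. All fields. The same for the nonempty subsets `T` of `{10, ..., 15}`, and `r = 16` instead of the squares, with
`badAll r` instead of `bad r`. The proportion is less than `0.617` for `T = {10, 11, 12, 13, 14, 15}`. -/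
theorem result :
    (∀ T : Finset ℕ, T.Nonempty → (∀ r ∈ T, 10 ≤ r) → (∀ r ∈ T, ¬ IsSquare r) →
      (∀ r ∈ T, ∀ r' ∈ T, r ≠ r' → ¬ IsSquare (r * r')) → ∀ K : ℕ,
      ∃ κ : ℝ, 0 < κ ∧ κ ≤ 1 ∧ ∃ M₀ : ℕ, ∀ M : ℕ, M₀ ≤ M →
        SparseExceptions κ K M (1 - ∏ r ∈ T, (1 - bad r)) (fun d => ∀ (k : Type u) [Field k] [CharZero k],
          ∀ r : ℕ, (r ∈ T ∨ (10 ≤ r ∧ IsSquare r)) → ∀ m : ℕ, At k r m d)) ∧
    (∀ r : ℕ, 10 ≤ r → 0 ≤ bad r ∧ bad r < 1 / 3) ∧
    (∀ T : Finset ℕ, T.Nonempty → T ⊆ {10, 11, 12, 13, 14, 15} → ∀ K : ℕ,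
      ∃ κ : ℝ, 0 < κ ∧ κ ≤ 1 ∧ ∃ M₀ : ℕ, ∀ M : ℕ, M₀ ≤ M →
        SparseExceptions κ K M (1 - ∏ r ∈ T, (1 - badAll r)) (fun d => ∀ (k : Type u) [Field k],
          ∀ r : ℕ, (r ∈ T ∨ r = 16) → ∀ m : ℕ, At k r m d)) ∧
    1 - ∏ r ∈ ({10, 11, 12, 13, 14, 15} : Finset ℕ), (1 - badAll r) < 0.617 := by
  have hwin : ∀ r : ℕ, 10 ≤ r → 0 ≤ min (Real.sqrt r - 3) (2 / 3 + 9 / (4 * Real.sqrt r)) +
      min (Real.sqrt r - 3) (2 / 3 + 1 / (4 * Real.sqrt r)) ∧
      min (Real.sqrt r - 3) (2 / 3 + 9 / (4 * Real.sqrt r)) +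
      min (Real.sqrt r - 3) (2 / 3 + 1 / (4 * Real.sqrt r)) < 2 := by
    intro r hr
    obtain ⟨h1, h2, h3⟩ := TH885.NW.win_len hr
    simp only [TH885.NW.loW, TH885.NW.upW] at h1 h2 h3
    constructor <;> linarith
  have hb : ∀ r : ℕ, 10 ≤ r → 0 ≤ bad r ∧ bad r < 1 / 3 := by
    intro r hr
    obtain ⟨h1, h2⟩ := hwin r hr
    have h3 := sqrt_three hr
    have hpos : 0 < 2 * Real.sqrt r := by linarith
    unfold bad
    refine ⟨div_nonneg h1 hpos.le, ?_⟩
    rw [div_lt_iff₀ hpos]
    linarith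
  refine ⟨?_, hb, ?_, ?_⟩
  · intro T hT hT10 hsq hpair K
    obtain ⟨κ, hκ, hκ1, M₀, -, h⟩ := Pool.Agent.Q54.FM.deg_several
      (fun r d => ∀ (k : Type u) [Field k] [CharZero k] (m : ℕ), At k r m d) T hT hsq hpair
      (fun r => min (Real.sqrt r - 3) (2 / 3 + 9 / (4 * Real.sqrt r)))
      (fun r => min (Real.sqrt r - 3) (2 / 3 + 1 / (4 * Real.sqrt r)))
      (fun r hr => ⟨(hwin r (hT10 r hr)).1, by
        have := (hb r (hT10 r hr)).2
        unfold bad at this
        linarith⟩)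
      (fun r hr d _ hn => by
        push Not at hn
        obtain ⟨k, _, _, m, hk⟩ := hn
        exact ⟨m, window k (hT10 r hr) m d hk⟩)
      (fun d => ∀ (k : Type u) [Field k] [CharZero k], ∀ r : ℕ, (r ∈ T ∨ (10 ≤ r ∧ IsSquare r)) → ∀ m : ℕ, At k r m d)
      (fun d _ hd k _ _ r hr m => by
        rcases hr with hr | ⟨hr, hs⟩
        · exact hd r hr k m
        · obtain ⟨F, hF, hF'⟩ := Pool.Agent.TH183.QS.coll_start (m := m) hr (Or.inr hs) k
          exact ⟨F, hF, fun c a hc => hF' c a hc d⟩) K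
    exact ⟨κ, hκ, hκ1, M₀, h⟩
  · intro T hT hT15 K
    have hmem : ∀ r ∈ T, 10 ≤ r ∧ r ≤ 15 := by
      intro r hr
      have h1 := hT15 hr
      simp only [Finset.mem_insert, Finset.mem_singleton] at h1
      omega
    have hsq : ∀ r ∈ T, ¬ IsSquare r := by
      intro r hr
      have h1 : ∀ r ∈ ({10, 11, 12, 13, 14, 15} : Finset ℕ), r < 225 ∧ ∀ x ∈ Finset.range 15, x * x ≠ r := by decide
      exact not_sq (h1 r (hT15 hr)).1 (h1 r (hT15 hr)).2
    have hpair : ∀ r ∈ T, ∀ r' ∈ T, r ≠ r' → ¬ IsSquare (r * r') := by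
      intro r hr r' hr'
      have h1 : ∀ r ∈ ({10, 11, 12, 13, 14, 15} : Finset ℕ), ∀ r' ∈ ({10, 11, 12, 13, 14, 15} : Finset ℕ),
        r ≠ r' → r * r' < 225 ∧ ∀ x ∈ Finset.range 15, x * x ≠ r * r' := by decide
      exact fun hne => not_sq (h1 r (hT15 hr) r' (hT15 hr') hne).1 (h1 r (hT15 hr) r' (hT15 hr') hne).2
    obtain ⟨κ, hκ, hκ1, M₀, -, h⟩ := Pool.Agent.Q54.FM.deg_several
      (fun r d => ∀ (k : Type u) [Field k] (m : ℕ), At k r m d) T hT hsq hpair
      (fun r => Real.sqrt r - 3) (fun r => Real.sqrt r - 3)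
      (fun r hr => by
        have h1 := sqrt_three (hmem r hr).1
        have hpos : 0 < 2 * Real.sqrt r := by linarith
        refine ⟨by linarith, ?_⟩
        rw [div_le_one hpos]
        linarith)
      (fun r hr d _ hn => by
        push Not at hn
        obtain ⟨k, _, m, hk⟩ := hn
        obtain ⟨hd1, hd2⟩ := window_all k (hmem r hr).1 m d hk
        exact ⟨m, by linarith, by linarith⟩)
      (fun d => ∀ (k : Type u) [Field k], ∀ r : ℕ, (r ∈ T ∨ r = 16) → ∀ m : ℕ, At k r m d)
      (fun d _ hd k _ r hr m => by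
        rcases hr with hr | rfl
        · exact hd r hr k m
        · exact sixteen k m d) K
    exact ⟨κ, hκ, hκ1, M₀, h⟩
  · obtain ⟨h1, h2, h3, h4, h5, h6⟩ := badAll_num
    rw [Finset.prod_insert (by decide), Finset.prod_insert (by decide), Finset.prod_insert (by decide),
      Finset.prod_insert (by decide), Finset.prod_insert (by decide), Finset.prod_singleton]
    have e1 := prod_le (by norm_num) (by norm_num) h5 h6
    have e2 := prod_le (by norm_num) (by norm_num) h4 e1
    have e3 := prod_le (by norm_num) (by norm_num) h3 e2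
    have e4 := prod_le (by norm_num) (by norm_num) h2 e3
    have e5 := prod_le (by norm_num) (by norm_num) h1 e4
    norm_num at e5 ⊢
    linarith

end Pool.Agent.Results.MP_e6aa12_ag.DegreesWithoutExceptions
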