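import Pool.Agent.TH183.QS.Fin
import Pool.Agent.TH885.NW.Exp2
import Pool.Agent.Q54.FM.Sets

set_option autoImplicit false

/-!
# General collisions of `r` fat points: all degrees, for multiplicities in polynomial sequences and prime multiplicities

Let `r ≥ 10` be no perfect square. We show for most of the multiplicities `m` in certain sparse sets that for every field
`k` of characteristic zero and all `(c, a)` outside a hypersurface the subscheme of the plane with ideal
`(y - (a₀ + a₁ x + ... + a_(r-1) x ^ (r-1)), (x - c) ^ r) ^ m` imposes the expected number of conditions on the forms of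
degree `d`, for ALL `d`. The proportion of the other multiplicities is at most `bad r < 1` (`bad 10 < 0.163`), and at most
`ε` if `r ≥ r₀(ε)`. (In the starting result `EveryNumberOfPoints` all `m < M` are counted, `M` being large in terms of
`r`.) The multiplicities are

* the values `f(n)`, `n < M`, of ANY polynomial `f` with integer coefficients of degree between `1` and `K` whose leading
  coefficient is at most `M ^ κ` (all intervals of length `M` wherever they are, arithmetic progressions with differences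
  `≤ M ^ κ`, squares, `k`-th powers, ...),
* the numbers `b p + h`, `p ≤ M` prime, `p ≡ a mod d` with `|b|, d ≤ M ^ κ` (prime multiplicities, multiplicities `p + h`
  with `h` of any size, ...),

with an error term `2 M ^ (1 - κ)`; `κ > 0` and `M₀` depend on `K` only, not on `r`, and the only condition on `M` is
`M ≥ M₀`, `M > 9 r`.

Proof. If `m` is exceptional, then an integer lies in a window of length `< 2 bad r` around `√r (2 m + 1) - 3` divided
by two (starting files). So the statement follows from the uniform distribution of the sequences `√r f(n)` and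
`√r b p` modulo one, with a power saving. This is derived from the bounds for exponential sums of the library of the team
(`Pool.Agent.Q29.Eqd`): `√r` has no rational approximation `a / q` with `q ≤ M ^ (1 / 4)` and
`|q √r - a| ≤ M ^ (- 3 / 4)` if `M > 9 r`, as `|q √r - a| |q √r + a| ≥ 1`.
-/

namespace Pool.Agent.Results.MP_e6aa12_ag.PolynomialPrimeMultiplicities

universe u

open Polynomial in
/-- The forms of degree `d` in three variables whose dehomogenisation lies in the ideal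
`(y - ∑ a_j x ^ j, (x - c) ^ r) ^ m` of `k[x][y]`. -/
noncomputable def forms {k : Type u} [Field k] {r : ℕ} (m : ℕ) (c : k) (a : Fin r → k) (d : ℕ) :
    Submodule k (MvPolynomial (Fin 3) k) :=
  MvPolynomial.homogeneousSubmodule (Fin 3) k d ⊓
    (Submodule.restrictScalars k
      ((Ideal.span {X - C (∑ j : Fin r, C (a j) * X ^ (j : ℕ)), C ((X - C c) ^ r)} :
        Ideal k[X][X]) ^ m)).comap
      (MvPolynomial.aeval ![C X, X, 1] :
        MvPolynomial (Fin 3) k →ₐ[k] k[X][X]).toLinearMap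

/-- Over every field of characteristic zero, for all `(c, a)` outside a hypersurface, the space of forms has the expected
dimension in all degrees `d`. -/
def AllDegrees (r m : ℕ) : Prop :=
  ∀ (k : Type u) [Field k] [CharZero k],
    ∃ F : MvPolynomial (Fin (r + 1)) k, F ≠ 0 ∧
      ∀ (c : k) (a : Fin r → k), MvPolynomial.eval (Fin.cons c a : Fin (r + 1) → k) F ≠ 0 →
        ∀ d : ℕ, Module.finrank k (forms m c a d) = Nat.choose (d + 2) 2 - r * Nat.choose (m + 1) 2

/-- The bound for the proportion of the exceptional multiplicities. -/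
noncomputable def bad (r : ℕ) : ℝ :=
  (min (Real.sqrt r - 3) (2 / 3 + 9 / (4 * Real.sqrt r)) +
    min (Real.sqrt r - 3) (2 / 3 + 1 / (4 * Real.sqrt r))) / 2

lemma bad_lt {r : ℕ} (hr : 10 ≤ r) : bad r < 1 := by
  obtain ⟨h1, h2, h3⟩ := TH885.NW.win_len hr
  unfold TH885.NW.loW TH885.NW.upW at h3
  unfold bad
  linarith

lemma bad_ten : bad 10 < 0.163 := by
  have h1 : Real.sqrt ((10 : ℕ) : ℝ) < 3.163 := by
    rw [Real.sqrt_lt' (by norm_num)]
    norm_num
  unfold bad
  have h2 := min_le_left (Real.sqrt ((10 : ℕ) : ℝ) - 3) (2 / 3 + 9 / (4 * Real.sqrt ((10 : ℕ) : ℝ)))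
  have h3 := min_le_left (Real.sqrt ((10 : ℕ) : ℝ) - 3) (2 / 3 + 1 / (4 * Real.sqrt ((10 : ℕ) : ℝ)))
  linarith

/-- `SparseExceptions κ K M η P`: the property `P` fails rarely in polynomial sequences and along primes.
1. For every polynomial `f` with integer coefficients of degree between `1` and `K`, the leading coefficient being at most
   `M ^ κ` in absolute value (the other coefficients are arbitrary), `P (f n)` fails for at most
   `η M + 2 M ^ (1 - κ)` of the natural numbers `n < M` with `f n > 0`.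
2. For all integers `b ≠ 0` and `h` and natural numbers `d ≥ 1` and `a`, `|b|, d ≤ M ^ κ`, `P (b p + h)` fails for at most
   `η T + 2 M ^ (1 - κ)` of the `T` primes `p ≤ M` with `p ≡ a mod d` (only those with `b p + h > 0` are counted). -/
def SparseExceptions (κ : ℝ) (K M : ℕ) (η : ℝ) (P : ℕ → Prop) : Prop :=
  (∀ f : Polynomial ℤ, 1 ≤ f.natDegree → f.natDegree ≤ K → |(f.leadingCoeff : ℝ)| ≤ (M : ℝ) ^ κ →
    ({n : ℕ | n < M ∧ 0 < f.eval (n : ℤ) ∧ ¬ P (f.eval (n : ℤ)).toNat}.ncard : ℝ) ≤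
      η * M + 2 * (M : ℝ) ^ (1 - κ)) ∧
  (∀ b h : ℤ, b ≠ 0 → |(b : ℝ)| ≤ (M : ℝ) ^ κ → ∀ d a : ℕ, 1 ≤ d → (d : ℝ) ≤ (M : ℝ) ^ κ →
    ({p : ℕ | p ≤ M ∧ p.Prime ∧ p ≡ a [MOD d] ∧ 0 < b * p + h ∧ ¬ P (b * p + h).toNat}.ncard : ℝ) ≤
      η * ({p : ℕ | p ≤ M ∧ p.Prime ∧ p ≡ a [MOD d]}.ncard : ℝ) + 2 * (M : ℝ) ^ (1 - κ))

lemma window {r : ℕ} (hr : 10 ≤ r) (m : ℕ) (_hm : 0 < m) (hbad : ¬ AllDegrees.{u} r m) :
    ∃ d : ℕ, -TH885.NW.loW r ≤ 2 * (d : ℝ) + 3 - Real.sqrt r * (2 * m + 1) ∧
      2 * (d : ℝ) + 3 - Real.sqrt r * (2 * m + 1) ≤ TH885.NW.upW r := by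
  by_contra hcon
  push Not at hcon
  apply hbad
  intro k _ _
  obtain ⟨F, hF, hF'⟩ := Pool.Agent.TH183.QS.coll_every hr m k
  refine ⟨F, hF, fun c a hc d => hF' c a hc d ?_⟩
  by_contra hd
  push Not at hd
  obtain ⟨d1, d2, d3, d4⟩ := hd
  have h1 : -TH885.NW.loW r ≤ 2 * (d : ℝ) + 3 - Real.sqrt r * (2 * m + 1) := by
    unfold TH885.NW.loW
    rcases min_choice (Real.sqrt r - 3) (2 / 3 + 9 / (4 * Real.sqrt r)) with h | h <;> rw [h] <;> linarith
  have h2 := hcon d h1
  unfold TH885.NW.upW at h2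
  rcases min_choice (Real.sqrt r - 3) (2 / 3 + 1 / (4 * Real.sqrt r)) with h | h <;> rw [h] at h2 <;> linarith

lemma window_eps {ε : ℝ} (hε : 0 < ε) : ∃ N : ℕ, ∀ r : ℕ, N ≤ r → ∀ m : ℕ, 0 < m → ¬ AllDegrees.{u} r m →
    ∃ d : ℕ, -ε ≤ 2 * (d : ℝ) + 3 - Real.sqrt r * (2 * m + 1) ∧
      2 * (d : ℝ) + 3 - Real.sqrt r * (2 * m + 1) ≤ ε := by
  obtain ⟨N, -, hN⟩ := Pool.Agent.TH183.QS.coll_large.{u} hε
  refine ⟨N, fun r hr m _ hbad => ?_⟩
  by_contra hcon
  push Not at hcon
  apply hbad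
  intro k _ _
  obtain ⟨F, hF, hF'⟩ := hN r hr m k
  refine ⟨F, hF, fun c a hc d => hF' c a hc d ?_⟩
  have e : 2 * (d : ℝ) + 3 - Real.sqrt r - 2 * (Real.sqrt r * m) =
      2 * (d : ℝ) + 3 - Real.sqrt r * (2 * m + 1) := by ring
  show ε ≤ |2 * (d : ℝ) + 3 - Real.sqrt r - 2 * (Real.sqrt r * m)|
  rw [e, le_abs]
  rcases le_or_gt (-ε) (2 * (d : ℝ) + 3 - Real.sqrt r * (2 * m + 1)) with h4 | h4
  · exact Or.inl (hcon d h4).le
  · right; linarith

/-- For every `K` there are `0 < κ ≤ 1` and `M₀` such that the following holds for all numbers `r` which are no squares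
and all `M ≥ M₀` with `M > 9 r`.
1. If `r ≥ 10`, the multiplicities which are exceptional for `r` points have the proportion at most `bad r < 1` in all the
   sequences of `SparseExceptions`, up to `2 M ^ (1 - κ)`; `bad 10 < 0.163`.
2. For every `ε > 0` and all `r ≥ r₀(ε)` the proportion is at most `ε`, up to `2 M ^ (1 - κ)`. -/
theorem result (K : ℕ) : ∃ κ : ℝ, 0 < κ ∧ κ ≤ 1 ∧ ∃ M₀ : ℕ,
    (∀ r M : ℕ, 10 ≤ r → ¬ IsSquare r → M₀ ≤ M → 9 * r < M →
      SparseExceptions κ K M (bad r) (AllDegrees.{u} r)) ∧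
    (∀ ε : ℝ, 0 < ε → ∃ r₀ : ℕ, ∀ r M : ℕ, r₀ ≤ r → ¬ IsSquare r → M₀ ≤ M → 9 * r < M →
      SparseExceptions κ K M ε (AllDegrees.{u} r)) ∧
    (∀ r : ℕ, 10 ≤ r → bad r < 1) ∧ bad 10 < 0.163 := by
  obtain ⟨κ, hκ, hκ1, M₀, -, h⟩ := Pool.Agent.Q54.FM.sets K
  refine ⟨κ, hκ, hκ1, M₀, fun r M hr hsq hM hMr => ?_, fun ε hε => ?_, fun r hr => bad_lt hr, bad_ten⟩
  · obtain ⟨h1, h2, h3⟩ := TH885.NW.win_len hr
    exact h r hsq M hM hMr (TH885.NW.loW r) (TH885.NW.upW r) (by linarith) (AllDegrees.{u} r) (window hr)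
  · obtain ⟨N, hN⟩ := window_eps.{u} hε
    refine ⟨N, fun r M hr hsq hM hMr => ?_⟩
    have h1 := h r hsq M hM hMr ε ε (by linarith) (AllDegrees.{u} r) (hN r hr)
    rwa [show (ε + ε) / 2 = ε by ring] at h1

end Pool.Agent.Results.MP_e6aa12_ag.PolynomialPrimeMultiplicities
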