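import Pool.Agent.TH183.QS.Fin
import Pool.Agent.TH518.CW.TwoC
import Pool.Agent.TH518.CW.Fin
import Pool.Agent.Q54.FM.Gen

set_option autoImplicit false

/-!
# General collisions: all degrees, sparse sets of multiplicities, several numbers of points at once

For `r ≥ 10` we consider the subschemes of the plane with ideal
`(y - (a₀ + a₁ x + ... + a_(r-1) x ^ (r-1)), (x - c) ^ r) ^ m`, for all `(c, a)` outside a hypersurface. We show for most
of the multiplicities `m` in certain sparse sets that the forms of degree `d` through the subscheme have the expected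
dimension for ALL `d`, for several numbers `r` at once. The proportion of the exceptional `m` is

* in characteristic zero: at most `1 - ∏ (1 - bad r)`, the product over the non-squares `r`, which have to lie in
  different square classes (and all squares `r ≥ 10` at once);
* for all fields: at most `1 - ∏ (1 - badAll r)`, for `r` in any subset of `{10, ..., 15}` and `r = 16`. So it is at most
  `0.287` for `r = 10, 11, 13, 16`, and less than `0.9875` for all of `r = 10, 11, 12, 13, 14, 15, 16`.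

The multiplicities run through

* the values `f(n)`, `n < M`, of ANY polynomial `f` with integer coefficients of degree between `1` and `K` whose leading
  coefficient is at most `M ^ κ` (all intervals of length `M` wherever they are, arithmetic progressions with differences
  `≤ M ^ κ`, squares, `k`-th powers, ...),
* the numbers `b p + h`, `p ≤ M` prime, `p ≡ a mod d` with `|b|, d ≤ M ^ κ` (prime multiplicities, multiplicities `p + h`
  with `h` of any size, ...),

with an error term `M ^ (1 - κ)`.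

Proof. If `m` is exceptional for `r`, then an integer lies in a window of length less than one around
`√r (m + 1 / 2) - 3 / 2`, or (for `r = 11, 13`) a multiple of three lies in a window of length less than `1 / 3`
(starting files). The vectors of the multiples of `√r`, `r` in different square classes, by the elements of the sequences
are jointly uniformly distributed modulo one with a power saving. This follows from the bounds for exponential sums of the
library of the team (`Pool.Agent.Q29.Eqd`) and from a lower bound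
`|v_1 √r_1 + ... + v_s √r_s - a| ≥ c / H ^ D` for integers of absolute value at most `H`, proved with the determinant of
the multiplication on the multiquadratic field (`Pool.Agent.Q54.FM.liou`).
-/

namespace Pool.Agent.Results.MP_e6aa12_ag.SeveralNumbersOfPoints

universe u

open Polynomial in
/-- The forms of degree `d` in three variables whose dehomogenisation lies in the ideal
`(y - ∑ a_j x ^ j, (x - c) ^ r) ^ m` of `k[x][y]`. -/
noncomputable def forms {k : Type u} [Field k] {r : ℕ} (m : ℕ) (c : k) (a : Fin r → k) (d : ℕ) :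
    Submodule k (MvPolynomial (Fin 3) k) :=
  MvPolynomial.homogeneousSubmodule (Fin 3) k d ⊓
    (Submodule.restrictScalars k
      ((Ideal.span {X - C (∑ j : Fin r, C (a j) * X ^ (j : ℕ)), C ((X - C c) ^ r)} :
        Ideal k[X][X]) ^ m)).comap
      (MvPolynomial.aeval ![C X, X, 1] :
        MvPolynomial (Fin 3) k →ₐ[k] k[X][X]).toLinearMap

/-- Over the field `k`, for all `(c, a)` outside a hypersurface, the space of forms has the expected dimension in EVERY
degree `d`. -/
def Expected (k : Type u) [Field k] (r m : ℕ) : Prop :=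
  ∃ F : MvPolynomial (Fin (r + 1)) k, F ≠ 0 ∧
    ∀ (c : k) (a : Fin r → k), MvPolynomial.eval (Fin.cons c a : Fin (r + 1) → k) F ≠ 0 →
      ∀ d : ℕ, Module.finrank k (forms m c a d) = Nat.choose (d + 2) 2 - r * Nat.choose (m + 1) 2

/-- The bound for the proportion of the exceptional multiplicities, characteristic zero. -/
noncomputable def bad (r : ℕ) : ℝ :=
  if r ∈ ({11, 13} : Finset ℕ) then (Real.sqrt r - 3) / 6 else
    (min (Real.sqrt r - 3) (2 / 3 + 9 / (4 * Real.sqrt r)) +
      min (Real.sqrt r - 3) (2 / 3 + 1 / (4 * Real.sqrt r))) / 2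

/-- The bound for the proportion of the exceptional multiplicities, all fields. -/
noncomputable def badAll (r : ℕ) : ℝ :=
  if r ∈ ({11, 13} : Finset ℕ) then (Real.sqrt r - 3) / 6 else
    ((Real.sqrt r - 3) + (Real.sqrt r - 3)) / 2

/-- `SparseExceptions κ K M η P`: the property `P` fails rarely in polynomial sequences and along primes.
1. For every polynomial `f` with integer coefficients of degree between `1` and `K`, the leading coefficient being at most
   `M ^ κ` in absolute value (the other coefficients are arbitrary), `P (f n)` fails for at most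
   `η M + M ^ (1 - κ)` of the natural numbers `n < M` with `f n > 0`.
2. For all integers `b ≠ 0` and `h` and natural numbers `d ≥ 1` and `a`, `|b|, d ≤ M ^ κ`, `P (b p + h)` fails for at most
   `η T + M ^ (1 - κ)` of the `T` primes `p ≤ M` with `p ≡ a mod d` (only those with `b p + h > 0` are counted). -/
def SparseExceptions (κ : ℝ) (K M : ℕ) (η : ℝ) (P : ℕ → Prop) : Prop :=
  (∀ f : Polynomial ℤ, 1 ≤ f.natDegree → f.natDegree ≤ K → |(f.leadingCoeff : ℝ)| ≤ (M : ℝ) ^ κ →
    ({n : ℕ | n < M ∧ 0 < f.eval (n : ℤ) ∧ ¬ P (f.eval (n : ℤ)).toNat}.ncard : ℝ) ≤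
      η * M + (M : ℝ) ^ (1 - κ)) ∧
  (∀ b h : ℤ, b ≠ 0 → |(b : ℝ)| ≤ (M : ℝ) ^ κ → ∀ d a : ℕ, 1 ≤ d → (d : ℝ) ≤ (M : ℝ) ^ κ →
    ({p : ℕ | p ≤ M ∧ p.Prime ∧ p ≡ a [MOD d] ∧ 0 < b * p + h ∧ ¬ P (b * p + h).toNat}.ncard : ℝ) ≤
      η * ({p : ℕ | p ≤ M ∧ p.Prime ∧ p ≡ a [MOD d]}.ncard : ℝ) + (M : ℝ) ^ (1 - κ))

lemma sqrt_lo {r : ℕ} (hr : 10 ≤ r) : 3 < Real.sqrt r := by
  rw [Real.lt_sqrt (by norm_num)]
  have : (10 : ℝ) ≤ r := by exact_mod_cast hr
  linarith

lemma sqrt_hi {r : ℕ} (hr : r ≤ 15) : Real.sqrt r < 4 := by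
  rw [Real.sqrt_lt' (by norm_num)]
  have : (r : ℝ) ≤ 15 := by exact_mod_cast hr
  linarith

/-- the multiples of three -/
lemma three_win (k : Type u) [Field k] {r : ℕ} (hr : r ∈ ({11, 13} : Finset ℕ)) (m : ℕ) (hbad : ¬ Expected k r m) :
    ∃ e : ℕ, Real.sqrt r * m ≤ 3 * e ∧ 6 * (e : ℝ) + 3 < Real.sqrt r * (2 * m + 1) := by
  by_contra hcon
  push Not at hcon
  apply hbad
  have key : ∀ d : ℕ, ¬ 3 ∣ d ∨ (d : ℝ) ≤ Real.sqrt r * m ∨ Real.sqrt r * (2 * m + 1) ≤ 2 * d + 3 := by
    intro d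
    by_cases h3 : 3 ∣ d
    · obtain ⟨e, rfl⟩ := h3
      rcases le_or_gt ((3 * e : ℕ) : ℝ) (Real.sqrt r * m) with h | h
      · exact Or.inr (Or.inl h)
      · right
        right
        push_cast at h ⊢
        have := hcon e h.le
        linarith
    · exact Or.inl h3
  rw [Finset.mem_insert, Finset.mem_singleton] at hr
  rcases hr with rfl | rfl
  · obtain ⟨F, hF, hF'⟩ := Pool.Agent.TH518.CW.eleven_coll (m := m) k
    exact ⟨F, hF, fun c a hc d => hF' c a hc d (key d)⟩
  · obtain ⟨F, hF, hF'⟩ := Pool.Agent.TH518.CW.thirteen_coll (m := m) k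
    exact ⟨F, hF, fun c a hc d => hF' c a hc d (key d)⟩

/-- the window, characteristic zero -/
lemma window (k : Type u) [Field k] [CharZero k] {r : ℕ} (hr : 10 ≤ r) (m : ℕ) (hbad : ¬ Expected k r m) :
    ∃ d : ℕ, -min (Real.sqrt r - 3) (2 / 3 + 9 / (4 * Real.sqrt r)) ≤ 2 * (d : ℝ) + 3 - Real.sqrt r * (2 * m + 1) ∧
      2 * (d : ℝ) + 3 - Real.sqrt r * (2 * m + 1) ≤ min (Real.sqrt r - 3) (2 / 3 + 1 / (4 * Real.sqrt r)) := by
  by_contra hcon
  push Not at hcon
  apply hbad
  obtain ⟨F, hF, hF'⟩ := Pool.Agent.TH183.QS.coll_every hr m k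
  refine ⟨F, hF, fun c a hc d => hF' c a hc d ?_⟩
  by_contra hd
  push Not at hd
  obtain ⟨d1, d2, d3, d4⟩ := hd
  have h1 : -min (Real.sqrt r - 3) (2 / 3 + 9 / (4 * Real.sqrt r)) ≤
      2 * (d : ℝ) + 3 - Real.sqrt r * (2 * m + 1) := by
    rcases min_choice (Real.sqrt r - 3) (2 / 3 + 9 / (4 * Real.sqrt r)) with h | h <;> rw [h] <;> linarith
  have h2 := hcon d h1
  rcases min_choice (Real.sqrt r - 3) (2 / 3 + 1 / (4 * Real.sqrt r)) with h | h <;> rw [h] at h2 <;> linarith

/-- the window, all fields -/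
lemma window_all (k : Type u) [Field k] {r : ℕ} (hr : 10 ≤ r) (m : ℕ) (hbad : ¬ Expected k r m) :
    ∃ d : ℕ, Real.sqrt r * m < d ∧ (d : ℝ) < Real.sqrt r * m + (Real.sqrt r - 3) := by
  by_contra hcon
  push Not at hcon
  apply hbad
  obtain ⟨F, hF, hF'⟩ := Pool.Agent.TH518.CW.coll_all (m := m) hr k
  refine ⟨F, hF, fun c a hc d => hF' c a hc d ?_⟩
  by_cases h3 : (d : ℝ) ≤ Real.sqrt r * m
  · exact Or.inl h3
  · right
    have h4 := hcon d (not_le.1 h3)
    linarith

lemma sixteen (k : Type u) [Field k] (m : ℕ) : Expected k 16 m := by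
  by_contra hbad
  obtain ⟨D, hD1, hD2⟩ := window_all k (by norm_num) m hbad
  have h3 : Real.sqrt ((16 : ℕ) : ℝ) = 4 := by
    have : ((16 : ℕ) : ℝ) = 4 ^ 2 := by norm_num
    rw [this]
    exact Real.sqrt_sq (by norm_num)
  rw [h3] at hD1 hD2
  have h4 : 4 * m < D := by exact_mod_cast hD1
  have h5 : (D : ℝ) < ((4 * m + 1 : ℕ) : ℝ) := by push_cast; linarith
  have h6 : D < 4 * m + 1 := by exact_mod_cast h5
  omega

lemma sqrt_num : Real.sqrt ((10 : ℕ) : ℝ) < 3.1623 ∧ Real.sqrt ((11 : ℕ) : ℝ) < 3.3167 ∧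
    Real.sqrt ((12 : ℕ) : ℝ) < 3.4642 ∧ Real.sqrt ((13 : ℕ) : ℝ) < 3.6056 ∧ Real.sqrt ((14 : ℕ) : ℝ) < 3.7417 ∧
    Real.sqrt ((15 : ℕ) : ℝ) < 3.873 := by
  refine ⟨?_, ?_, ?_, ?_, ?_, ?_⟩ <;>
    · rw [Real.sqrt_lt' (by norm_num)]
      norm_num

lemma badAll_num : 0.8377 ≤ 1 - badAll 10 ∧ 0.9472 ≤ 1 - badAll 11 ∧ 0.5358 ≤ 1 - badAll 12 ∧
    0.899 ≤ 1 - badAll 13 ∧ 0.2583 ≤ 1 - badAll 14 ∧ 0.127 ≤ 1 - badAll 15 := by
  obtain ⟨h1, h2, h3, h4, h5, h6⟩ := sqrt_num
  unfold badAll
  rw [if_neg (by decide), if_pos (by decide), if_neg (by decide), if_pos (by decide), if_neg (by decide),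
    if_neg (by decide)]
  refine ⟨?_, ?_, ?_, ?_, ?_, ?_⟩ <;> linarith

lemma not_sq {n : ℕ} (h : n < 225) (h' : ∀ x ∈ Finset.range 15, x * x ≠ n) : ¬ IsSquare n := by
  rintro ⟨x, hx⟩
  refine h' x ?_ hx.symm
  rw [Finset.mem_range]
  by_contra hcon
  have h2 : 15 ≤ x := by omega
  have h3 := Nat.mul_le_mul h2 h2
  omega

lemma prod_le {a b x y : ℝ} (ha : 0 ≤ a) (hb : 0 ≤ b) (h1 : a ≤ x) (h2 : b ≤ y) : a * b ≤ x * y :=
  mul_le_mul h1 h2 hb (ha.trans h1)

/-- 1. Characteristic zero. Let `T` be a nonempty finite set of numbers `r ≥ 10`, no element of `T` and no product of two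
different elements being a perfect square. For every `K` there are `0 < κ ≤ 1` and `M₀` such that for all `M ≥ M₀` and
every field `k` of characteristic zero the multiplicities for which `Expected k r m` fails for SOME `r` in `T` or for some
perfect square `r ≥ 10` have the proportion at most `1 - ∏_(r in T) (1 - bad r)` in all the sequences of
`SparseExceptions`, up to `M ^ (1 - κ)`; and `0 ≤ bad r < 1`.
2. All fields. The same for the nonempty subsets `T` of `{10, ..., 15}`, and `r = 16` instead of the squares, with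
`badAll r` instead of `bad r`. The proportion is at most `0.287` for `T = {10, 11, 13}` and less than `0.9875` for
`T = {10, 11, 12, 13, 14, 15}`. -/
theorem result :
    (∀ T : Finset ℕ, T.Nonempty → (∀ r ∈ T, 10 ≤ r) → (∀ r ∈ T, ¬ IsSquare r) →
      (∀ r ∈ T, ∀ r' ∈ T, r ≠ r' → ¬ IsSquare (r * r')) → ∀ K : ℕ,
      ∃ κ : ℝ, 0 < κ ∧ κ ≤ 1 ∧ ∃ M₀ : ℕ, ∀ M : ℕ, M₀ ≤ M →
        SparseExceptions κ K M (1 - ∏ r ∈ T, (1 - bad r)) (fun m => ∀ (k : Type u) [Field k] [CharZero k],
          ∀ r : ℕ, (r ∈ T ∨ (10 ≤ r ∧ IsSquare r)) → Expected k r m)) ∧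
    (∀ r : ℕ, 10 ≤ r → 0 ≤ bad r ∧ bad r < 1) ∧
    (∀ T : Finset ℕ, T.Nonempty → T ⊆ {10, 11, 12, 13, 14, 15} → ∀ K : ℕ,
      ∃ κ : ℝ, 0 < κ ∧ κ ≤ 1 ∧ ∃ M₀ : ℕ, ∀ M : ℕ, M₀ ≤ M →
        SparseExceptions κ K M (1 - ∏ r ∈ T, (1 - badAll r)) (fun m => ∀ (k : Type u) [Field k],
          ∀ r : ℕ, (r ∈ T ∨ r = 16) → Expected k r m)) ∧
    1 - ∏ r ∈ ({10, 11, 13} : Finset ℕ), (1 - badAll r) < 0.287 ∧
    1 - ∏ r ∈ ({10, 11, 12, 13, 14, 15} : Finset ℕ), (1 - badAll r) < 0.9875 := by
  have hwin : ∀ r : ℕ, 10 ≤ r → 0 ≤ min (Real.sqrt r - 3) (2 / 3 + 9 / (4 * Real.sqrt r)) +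
      min (Real.sqrt r - 3) (2 / 3 + 1 / (4 * Real.sqrt r)) ∧
      min (Real.sqrt r - 3) (2 / 3 + 9 / (4 * Real.sqrt r)) +
      min (Real.sqrt r - 3) (2 / 3 + 1 / (4 * Real.sqrt r)) < 2 := by
    intro r hr
    obtain ⟨h1, h2, h3⟩ := TH885.NW.win_len hr
    simp only [TH885.NW.loW, TH885.NW.upW] at h1 h2 h3
    constructor <;> linarith
  refine ⟨?_, ?_, ?_, ?_, ?_⟩
  · intro T hT hT10 hsq hpair K
    obtain ⟨κ, hκ, hκ1, M₀, -, h⟩ := Pool.Agent.Q54.FM.several_gen
      (fun r m => ∀ (k : Type u) [Field k] [CharZero k], Expected k r m) {11, 13} T hT hsq hpair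
      (fun r => min (Real.sqrt r - 3) (2 / 3 + 9 / (4 * Real.sqrt r)))
      (fun r => min (Real.sqrt r - 3) (2 / 3 + 1 / (4 * Real.sqrt r)))
      (fun r hr _ => ⟨(hwin r (hT10 r hr)).1, (hwin r (hT10 r hr)).2.le⟩)
      (fun r hr _ m _ hn => by
        push Not at hn
        obtain ⟨k, _, _, hk⟩ := hn
        exact window k (hT10 r hr) m hk)
      (fun r hr hz => ⟨(sqrt_lo (hT10 r hr)).le, by
        have : r ≤ 15 := by
          rw [Finset.mem_insert, Finset.mem_singleton] at hz
          omega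
        linarith [sqrt_hi this]⟩)
      (fun r _ hz m _ hn => by
        push Not at hn
        obtain ⟨k, _, _, hk⟩ := hn
        exact three_win k hz m hk)
      (fun m => ∀ (k : Type u) [Field k] [CharZero k], ∀ r : ℕ, (r ∈ T ∨ (10 ≤ r ∧ IsSquare r)) → Expected k r m)
      (fun m _ hm k _ _ r hr => by
        rcases hr with hr | ⟨hr, hs⟩
        · exact hm r hr k
        · obtain ⟨F, hF, hF'⟩ := Pool.Agent.TH183.QS.coll_start (m := m) hr (Or.inr hs) k
          exact ⟨F, hF, fun c a hc d => hF' c a hc d⟩) K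
    exact ⟨κ, hκ, hκ1, M₀, h⟩
  · intro r hr
    have h1 := hwin r hr
    have h2 := sqrt_lo hr
    unfold bad
    by_cases hz : r ∈ ({11, 13} : Finset ℕ)
    · rw [if_pos hz]
      have : r ≤ 15 := by
        rw [Finset.mem_insert, Finset.mem_singleton] at hz
        omega
      have h3 := sqrt_hi this
      constructor <;> linarith
    · rw [if_neg hz]
      constructor <;> linarith
  · intro T hT hT15 K
    have hmem : ∀ r ∈ T, 10 ≤ r ∧ r ≤ 15 := by
      intro r hr
      have h1 := hT15 hr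
      simp only [Finset.mem_insert, Finset.mem_singleton] at h1
      omega
    have hsq : ∀ r ∈ T, ¬ IsSquare r := by
      intro r hr
      have h1 : ∀ r ∈ ({10, 11, 12, 13, 14, 15} : Finset ℕ), r < 225 ∧ ∀ x ∈ Finset.range 15, x * x ≠ r := by decide
      exact not_sq (h1 r (hT15 hr)).1 (h1 r (hT15 hr)).2
    have hpair : ∀ r ∈ T, ∀ r' ∈ T, r ≠ r' → ¬ IsSquare (r * r') := by
      intro r hr r' hr'
      have h1 : ∀ r ∈ ({10, 11, 12, 13, 14, 15} : Finset ℕ), ∀ r' ∈ ({10, 11, 12, 13, 14, 15} : Finset ℕ),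
        r ≠ r' → r * r' < 225 ∧ ∀ x ∈ Finset.range 15, x * x ≠ r * r' := by decide
      exact fun hne => not_sq (h1 r (hT15 hr) r' (hT15 hr') hne).1 (h1 r (hT15 hr) r' (hT15 hr') hne).2
    obtain ⟨κ, hκ, hκ1, M₀, -, h⟩ := Pool.Agent.Q54.FM.several_gen
      (fun r m => ∀ (k : Type u) [Field k], Expected k r m) {11, 13} T hT hsq hpair
      (fun r => Real.sqrt r - 3) (fun r => Real.sqrt r - 3)
      (fun r hr _ => by
        have h1 := sqrt_lo (hmem r hr).1
        have h2 := sqrt_hi (hmem r hr).2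
        constructor <;> linarith)
      (fun r hr _ m _ hn => by
        push Not at hn
        obtain ⟨k, _, hk⟩ := hn
        obtain ⟨d, hd1, hd2⟩ := window_all k (hmem r hr).1 m hk
        refine ⟨d, ?_, ?_⟩ <;> linarith)
      (fun r hr hz => ⟨(sqrt_lo (hmem r hr).1).le, by linarith [sqrt_hi (hmem r hr).2]⟩)
      (fun r _ hz m _ hn => by
        push Not at hn
        obtain ⟨k, _, hk⟩ := hn
        exact three_win k hz m hk)
      (fun m => ∀ (k : Type u) [Field k], ∀ r : ℕ, (r ∈ T ∨ r = 16) → Expected k r m)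
      (fun m _ hm k _ r hr => by
        rcases hr with hr | rfl
        · exact hm r hr k
        · exact sixteen k m) K
    exact ⟨κ, hκ, hκ1, M₀, h⟩
  · obtain ⟨h1, h2, h3, h4, h5, h6⟩ := badAll_num
    rw [Finset.prod_insert (by decide), Finset.prod_insert (by decide), Finset.prod_singleton]
    have e1 := prod_le (by norm_num) (by norm_num) h2 h4
    have e2 := prod_le (by norm_num) (by norm_num) h1 e1
    norm_num at e2 ⊢
    linarith
  · obtain ⟨h1, h2, h3, h4, h5, h6⟩ := badAll_num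
    rw [Finset.prod_insert (by decide), Finset.prod_insert (by decide), Finset.prod_insert (by decide),
      Finset.prod_insert (by decide), Finset.prod_insert (by decide), Finset.prod_singleton]
    have e1 := prod_le (by norm_num) (by norm_num) h5 h6
    have e2 := prod_le (by norm_num) (by norm_num) h4 e1
    have e3 := prod_le (by norm_num) (by norm_num) h3 e2
    have e4 := prod_le (by norm_num) (by norm_num) h2 e3
    have e5 := prod_le (by norm_num) (by norm_num) h1 e4
    norm_num at e5 ⊢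
    linarith

end Pool.Agent.Results.MP_e6aa12_ag.SeveralNumbersOfPoints
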